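import Mathlib

set_option autoImplicit false

namespace Pool.Agent.H11Z.PolyIdx

universe u

/-- The norm of the `k`-homogeneous polynomial `P x = A (x, …, x)`: supremum of `‖P x‖` over the
unit sphere. -/
noncomputable def polyNorm {X : Type u} [NormedAddCommGroup X] [NormedSpace ℝ X] {k : ℕ}
    (A : ContinuousMultilinearMap ℝ (fun _ : Fin k => X) X) : ℝ :=
  sSup {r : ℝ | ∃ x : X, ‖x‖ = 1 ∧ r = ‖A (fun _ => x)‖}

/-- The numerical radius of `P x = A (x, …, x)`: supremum of `|f (P x)|` over the pairs with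
`‖x‖ = ‖f‖ = f x = 1`. -/
noncomputable def polyRadius {X : Type u} [NormedAddCommGroup X] [NormedSpace ℝ X] {k : ℕ}
    (A : ContinuousMultilinearMap ℝ (fun _ : Fin k => X) X) : ℝ :=
  sSup {r : ℝ | ∃ (x : X) (f : X →L[ℝ] ℝ), ‖x‖ = 1 ∧ ‖f‖ = 1 ∧ f x = 1 ∧
    r = |f (A (fun _ => x))|}

/-- The polynomial numerical index of order `k` of the real normed space `X`: infimum of the
numerical radii of the `k`-homogeneous polynomials of norm one. -/
noncomputable def polyIndex (k : ℕ) (X : Type u) [NormedAddCommGroup X] [NormedSpace ℝ X] : ℝ :=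
  sInf {r : ℝ | ∃ A : ContinuousMultilinearMap ℝ (fun _ : Fin k => X) X,
    polyNorm A = 1 ∧ r = polyRadius A}

/-- The set `R_k` of all values of the polynomial numerical index of order `k` on nonzero real
Banach spaces. -/
def realRange (k : ℕ) : Set ℝ :=
  {r : ℝ | ∃ (X : Type u) (_ : NormedAddCommGroup X) (_ : NormedSpace ℝ X),
    CompleteSpace X ∧ Nontrivial X ∧ r = polyIndex k X}

end Pool.Agent.H11Z.PolyIdx
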