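import Pool.Agent.H11Z.PolyIdx.Basic
import Pool.Agent.Helper184.GurMain

set_option autoImplicit false

namespace Pool.Agent.H11Z.PolyIdx

universe u

open Pool.Agent.Helper184.Gur

/-- Second order expansion of a homogeneous polynomial, uniform on the unit ball. -/
lemma expansion {X : Type u} [NormedAddCommGroup X] [NormedSpace ℝ X] (n : ℕ) :
    ∀ (Y : Type u) [NormedAddCommGroup Y] [NormedSpace ℝ Y]
      (A : ContinuousMultilinearMap ℝ (fun _ : Fin n => X) Y), ∃ C : ℝ, 0 ≤ C ∧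
      ∀ x : X, ‖x‖ ≤ 1 → ∃ (L : X →L[ℝ] Y) (B : X →L[ℝ] X →L[ℝ] Y),
        ‖A (fun _ => x)‖ ≤ C ∧ (∀ h, ‖L h‖ ≤ C * ‖h‖) ∧ (∀ h, ‖B h h‖ ≤ C * ‖h‖ ^ 2) ∧
        ∀ h, ‖h‖ ≤ 1 → ‖A (fun _ => x + h) - A (fun _ => x) - L h - B h h‖ ≤ C * ‖h‖ ^ 3 := by
  induction n with
  | zero =>
    intro Y _ _ A
    refine ⟨‖A 0‖, norm_nonneg _, fun x _ => ⟨0, 0, ?_, ?_, ?_, ?_⟩⟩
    · rw [Subsingleton.elim (fun _ : Fin 0 => x) 0]
    · intro h; simp; positivity
    · intro h; simp; positivity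
    · intro h _
      rw [Subsingleton.elim (fun _ : Fin 0 => x + h) (fun _ => x)]
      simp; positivity
  | succ n ih =>
    intro Y _ _ A
    let A' : ContinuousMultilinearMap ℝ (fun _ : Fin n => X) (X →L[ℝ] Y) := A.curryRight
    have hA' : ∀ y : X, A (fun _ => y) = A' (fun _ => y) y := by
      intro y
      change A (fun _ => y) = A (Fin.snoc (α := fun _ => X) (fun _ => y) y)
      congr 1
      funext i
      refine Fin.lastCases ?_ (fun j => ?_) i
      · rw [Fin.snoc_last]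
      · rw [Fin.snoc_castSucc]
    obtain ⟨C, hC, H⟩ := ih (X →L[ℝ] Y) A'
    refine ⟨3 * C, by positivity, fun x hx => ?_⟩
    obtain ⟨L', B', h0, h1, h2, h3⟩ := H x hx
    let ev : (X →L[ℝ] Y) →L[ℝ] Y := ContinuousLinearMap.apply ℝ Y x
    let L : X →L[ℝ] Y := A' (fun _ => x) + ev.comp L'
    let B : X →L[ℝ] X →L[ℝ] Y :=
      L' + ((ContinuousLinearMap.compL ℝ X (X →L[ℝ] Y) Y) ev).comp B'
    have hL : ∀ h, L h = A' (fun _ => x) h + L' h x := fun _ => rfl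
    have hB : ∀ h, B h h = L' h h + B' h h x := fun _ => rfl
    refine ⟨L, B, ?_, ?_, ?_, ?_⟩
    · rw [hA']
      calc ‖A' (fun _ => x) x‖ ≤ ‖A' (fun _ => x)‖ * ‖x‖ := (A' (fun _ => x)).le_opNorm x
        _ ≤ C * 1 := by gcongr
        _ ≤ 3 * C := by linarith
    · intro h
      rw [hL]
      have a1 : ‖A' (fun _ => x) h‖ ≤ C * ‖h‖ :=
        ((A' (fun _ => x)).le_opNorm h).trans (by gcongr)
      have a2 : ‖L' h x‖ ≤ C * ‖h‖ * 1 :=
        ((L' h).le_opNorm x).trans (by gcongr; exact h1 h)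
      have a3 : 0 ≤ C * ‖h‖ := by positivity
      calc _ ≤ ‖A' (fun _ => x) h‖ + ‖L' h x‖ := norm_add_le _ _
        _ ≤ 3 * C * ‖h‖ := by linarith
    · intro h
      rw [hB]
      have a1 : ‖L' h h‖ ≤ C * ‖h‖ * ‖h‖ :=
        ((L' h).le_opNorm h).trans (by gcongr; exact h1 h)
      have a2 : ‖B' h h x‖ ≤ C * ‖h‖ ^ 2 * 1 :=
        ((B' h h).le_opNorm x).trans (by gcongr; exact h2 h)
      have a3 : 0 ≤ C * ‖h‖ ^ 2 := by positivity
      calc _ ≤ ‖L' h h‖ + ‖B' h h x‖ := norm_add_le _ _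
        _ ≤ 3 * C * ‖h‖ ^ 2 := by nlinarith
    · intro h hh
      set R := A' (fun _ => x + h) - A' (fun _ => x) - L' h - B' h h with hR
      have e1 : A (fun _ => x + h) - A (fun _ => x) - L h - B h h = B' h h h + R (x + h) := by
        rw [hA', hA', hL, hB, hR]
        simp only [ContinuousLinearMap.sub_apply, map_add]
        abel
      rw [e1]
      have a1 : ‖B' h h h‖ ≤ C * ‖h‖ ^ 2 * ‖h‖ :=
        ((B' h h).le_opNorm h).trans (by gcongr; exact h2 h)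
      have a0 : ‖x + h‖ ≤ 2 := (norm_add_le _ _).trans (by linarith)
      have a2 : ‖R (x + h)‖ ≤ C * ‖h‖ ^ 3 * 2 :=
        (R.le_opNorm _).trans (by gcongr; exact h3 h hh)
      calc _ ≤ ‖B' h h h‖ + ‖R (x + h)‖ := norm_add_le _ _
        _ ≤ C * ‖h‖ ^ 2 * ‖h‖ + C * ‖h‖ ^ 3 * 2 := add_le_add a1 a2
        _ = 3 * C * ‖h‖ ^ 3 := by ring

section Main

variable {X : Type u} [NormedAddCommGroup X] [NormedSpace ℝ X]
variable {co : ℕ → X →L[ℝ] ℝ} {z : ℕ → X}

lemma norm_z_le (G : IsG co z) (k : ℕ) : ‖z k‖ ≤ 1 := by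
  have := G.norm_add_bump (k := k) (x := 0) Rec.zero (C := 1) (by simp) (t := 1) (by simp)
  simpa using this

/-- The uniform expansion property of a map `F`. -/
def Expa (F : X → X) (C : ℝ) : Prop :=
  ∀ x : X, ‖x‖ ≤ 1 → ∃ (L : X →L[ℝ] X) (B : X →L[ℝ] X →L[ℝ] X),
    ‖F x‖ ≤ C ∧ (∀ h, ‖L h‖ ≤ C * ‖h‖) ∧ (∀ h, ‖B h h‖ ≤ C * ‖h‖ ^ 2) ∧
    ∀ h, ‖h‖ ≤ 1 → ‖F (x + h) - F x - L h - B h h‖ ≤ C * ‖h‖ ^ 3

/-- one step of the walk -/
lemma walk_step (G : IsG co z) {F : X → X} {C : ℝ} (hC : 0 ≤ C) (hF : Expa F C) {lam δ : ℝ}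
    (hlam : 0 < lam) (hδ : 0 < δ) (hδ1 : δ ≤ 1) (hCδ : C * δ ≤ lam / 4) {x : X} {n j : ℕ}
    (hx : Rec co n x) (hx1 : ‖x‖ ≤ 1) (hj : |co j x| ≤ 1 - δ) :
    ∃ (x' : X) (n' j' : ℕ), Rec co n' x' ∧ ‖x'‖ ≤ 1 ∧
      co j (F x) + lam * (co j x) ^ 2 + lam * δ ^ 2 / 2 ≤ co j' (F x') + lam * (co j' x') ^ 2 := by
  obtain ⟨L, B, -, h1, h2, h3⟩ := hF x hx1
  obtain ⟨w, n', hw, hwd⟩ := G.dense (F x) (lam * δ ^ 2 / 16) (by positivity)
  obtain ⟨k, hk, hev, hq⟩ := exists_good G B (j := j) (m := max (max n n') (j + 1))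
    (lt_of_lt_of_le (Nat.lt_succ_self j) (le_max_right _ _)) (ε := lam / 8) (by positivity)
  have hnk : n ≤ k := ((le_max_left _ _).trans (le_max_left _ _)).trans hk
  have hw' : co k w = co j w :=
    hev w (hw.mono ((le_max_right _ _).trans (le_max_left _ _)))
  have hx' : co k x = co j x :=
    hev x (hx.mono ((le_max_left _ _).trans (le_max_left _ _)))
  have e1 := (G.le_norm (F x - w) k).trans hwd
  have e2 := (G.le_norm (F x - w) j).trans hwd
  simp only [map_sub] at e1 e2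
  rw [abs_le] at e1 e2
  obtain ⟨t, ht, htl⟩ : ∃ t : ℝ, |t| = δ ∧ 0 ≤ t * (co k (L (z k)) + 2 * lam * co j x) := by
    rcases le_total 0 (co k (L (z k)) + 2 * lam * co j x) with hc | hc
    · exact ⟨δ, abs_of_pos hδ, mul_nonneg hδ.le hc⟩
    · exact ⟨-δ, by rw [abs_neg, abs_of_pos hδ],
        mul_nonneg_of_nonpos_of_nonpos (by linarith) hc⟩
  have ht2 : t ^ 2 = δ ^ 2 := by rw [← sq_abs, ht]
  have hz := norm_z_le G k
  have hh : ‖t • z k‖ ≤ δ := by
    rw [norm_smul, Real.norm_eq_abs, ht]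
    nlinarith [norm_nonneg (z k)]
  refine ⟨x + t • z k, k + 1, k, (hx.mono (hnk.trans (Nat.le_succ k))).add ((G.z_rec k).smul t),
    G.norm_add_bump (hx.mono hnk) hx1 ?_, ?_⟩
  · rw [hx']
    calc |co j x + t| ≤ |co j x| + |t| := abs_add_le _ _
      _ ≤ 1 := by rw [ht]; linarith
  · have r1 := (G.le_norm _ k).trans (h3 (t • z k) (hh.trans hδ1))
    have r2 : C * ‖t • z k‖ ^ 3 ≤ lam / 4 * δ ^ 2 := by
      calc C * ‖t • z k‖ ^ 3 ≤ C * δ ^ 3 := by gcongr
        _ = (C * δ) * δ ^ 2 := by ring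
        _ ≤ lam / 4 * δ ^ 2 := by gcongr
    have r3 := r1.trans r2
    simp only [map_sub, map_smul, ContinuousLinearMap.smul_apply, smul_eq_mul] at r3
    rw [abs_le] at r3
    have hcx : co k (x + t • z k) = co j x + t := by
      rw [map_add, map_smul, G.z_self, smul_eq_mul, mul_one, hx']
    rw [hcx]
    have r4 : -(lam / 8 * δ ^ 2) ≤ t * (t * co k (B (z k) (z k))) := by
      have : t * (t * co k (B (z k) (z k))) = δ ^ 2 * co k (B (z k) (z k)) := by
        rw [← ht2]; ring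
      rw [this]
      nlinarith [sq_nonneg δ]
    have r5 : lam * (co j x + t) ^ 2 =
        lam * (co j x) ^ 2 + 2 * lam * co j x * t + lam * δ ^ 2 := by
      rw [← ht2]; ring
    rw [r5]
    nlinarith [r3.1, e1.1, e1.2, e2.1, e2.2]

/-- the walk reaches the neighbourhood of the sphere -/
lemma walk_end (G : IsG co z) {F : X → X} {C : ℝ} (hC : 0 ≤ C) (hF : Expa F C) {lam δ : ℝ}
    (hlam : 0 < lam) (hδ : 0 < δ) (hδ1 : δ ≤ 1) (hCδ : C * δ ≤ lam / 4) {x : X} {n j : ℕ}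
    (hx : Rec co n x) (hx1 : ‖x‖ ≤ 1) :
    ∃ (x' : X) (n' j' : ℕ), Rec co n' x' ∧ ‖x'‖ ≤ 1 ∧ 1 - δ < |co j' x'| ∧
      co j (F x) ≤ co j' (F x') + lam := by
  by_contra hcon
  push Not at hcon
  have key : ∀ N : ℕ, ∃ (x' : X) (n' j' : ℕ), Rec co n' x' ∧ ‖x'‖ ≤ 1 ∧
      co j (F x) + N * (lam * δ ^ 2 / 2) ≤ co j' (F x') + lam * (co j' x') ^ 2 := by
    intro N
    induction N with
    | zero =>
      refine ⟨x, n, j, hx, hx1, ?_⟩
      have : 0 ≤ lam * (co j x) ^ 2 := by positivity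
      simpa using this
    | succ N ih =>
      obtain ⟨x', n', j', h1, h2, h3⟩ := ih
      have hsq : (co j' x') ^ 2 ≤ 1 := by
        have := (G.le_norm x' j').trans h2
        rw [← sq_abs]
        nlinarith [abs_nonneg (co j' x')]
      have h4 : |co j' x'| ≤ 1 - δ := by
        by_contra h5
        push Not at h5
        have h6 := hcon x' n' j' h1 h2 h5
        have h7 : 0 ≤ (N : ℝ) * (lam * δ ^ 2 / 2) := by positivity
        nlinarith
      obtain ⟨x'', n'', j'', g1, g2, g3⟩ := walk_step G hC hF hlam hδ hδ1 hCδ h1 h2 h4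
      refine ⟨x'', n'', j'', g1, g2, ?_⟩
      push_cast
      linarith
  obtain ⟨N, hN⟩ := exists_nat_gt ((2 * C + lam) / (lam * δ ^ 2 / 2))
  rw [div_lt_iff₀ (by positivity)] at hN
  obtain ⟨x', n', j', -, h2, h3⟩ := key N
  obtain ⟨-, -, b1, -⟩ := hF x hx1
  obtain ⟨-, -, b2, -⟩ := hF x' h2
  have c1 := (G.le_norm _ j).trans b1
  have c2 := (G.le_norm _ j').trans b2
  rw [abs_le] at c1 c2
  have hsq : (co j' x') ^ 2 ≤ 1 := by
    have := (G.le_norm x' j').trans h2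
    rw [← sq_abs]
    nlinarith [abs_nonneg (co j' x')]
  nlinarith [c1.1, c2.2]

/-- `c` bounds the numerical radius of `F`. -/
def Bnd (F : X → X) (c : ℝ) : Prop :=
  ∀ (x : X) (f : X →L[ℝ] ℝ), ‖x‖ = 1 → ‖f‖ = 1 → f x = 1 → |f (F x)| ≤ c

/-- the last jump to the sphere -/
lemma last_jump (G : IsG co z) {F : X → X} {C : ℝ} (hC : 0 ≤ C) (hF : Expa F C) {c δ : ℝ}
    (H : Bnd F c) (hδ : 0 < δ) (hδ1 : δ ≤ 1) {x : X} {n j : ℕ}
    (hx : Rec co n x) (hx1 : ‖x‖ ≤ 1) (hj : 1 - δ < |co j x|) :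
    co j (F x) ≤ c + 3 * C * δ + 2 * δ := by
  obtain ⟨L, B, -, h1, h2, h3⟩ := hF x hx1
  obtain ⟨w, n', hw, hwd⟩ := G.dense (F x) δ hδ
  obtain ⟨k, hk, hak, hbk⟩ := exists_ab j j (max n n')
  have hnk : n ≤ k := (le_max_left _ _).trans hk
  have hw' : co k w = co j w := by
    rw [hw k ((le_max_right _ _).trans hk), hak, hbk]; ring
  have hx' : co k x = co j x := by
    rw [hx k hnk, hak, hbk]; ring
  have e1 := (G.le_norm (F x - w) k).trans hwd
  have e2 := (G.le_norm (F x - w) j).trans hwd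
  simp only [map_sub] at e1 e2
  rw [abs_le] at e1 e2
  have ha := (G.le_norm x j).trans hx1
  obtain ⟨t, s, hs, hts, ht⟩ : ∃ t s : ℝ, (s = 1 ∨ s = -1) ∧ co j x + t = s ∧ |t| ≤ δ := by
    rcases le_total 0 (co j x) with hc | hc
    · rw [abs_of_nonneg hc] at hj ha
      exact ⟨1 - co j x, 1, Or.inl rfl, by ring, by rw [abs_le]; constructor <;> linarith⟩
    · rw [abs_of_nonpos hc] at hj ha
      exact ⟨-1 - co j x, -1, Or.inr rfl, by ring, by rw [abs_le]; constructor <;> linarith⟩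
  have hss : s * s = 1 := by rcases hs with rfl | rfl <;> norm_num
  have habs : |s| = 1 := by rcases hs with rfl | rfl <;> norm_num
  have hz := norm_z_le G k
  have hh : ‖t • z k‖ ≤ δ := by
    rw [norm_smul, Real.norm_eq_abs]
    nlinarith [norm_nonneg (z k), abs_nonneg t]
  set x' := x + t • z k with hxx
  have hcx : co k x' = s := by
    rw [hxx, map_add, map_smul, G.z_self, smul_eq_mul, mul_one, hx', hts]
  have hn1 : ‖x'‖ ≤ 1 := G.norm_add_bump (hx.mono hnk) hx1 (by rw [hx', hts, habs])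
  have hn2 : 1 ≤ ‖x'‖ := by
    have := G.le_norm x' k
    rwa [hcx, habs] at this
  have hn : ‖x'‖ = 1 := le_antisymm hn1 hn2
  have hf1 : ‖s • co k‖ ≤ 1 := by
    apply ContinuousLinearMap.opNorm_le_bound _ zero_le_one
    intro y
    rw [one_mul, _root_.smul_apply, norm_smul, Real.norm_eq_abs, Real.norm_eq_abs, habs, one_mul]
    exact G.le_norm y k
  have hfx : (s • co k) x' = 1 := by
    rw [_root_.smul_apply, hcx, smul_eq_mul, hss]
  have hf2 : 1 ≤ ‖s • co k‖ := by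
    have := (s • co k).le_opNorm x'
    rw [hfx, hn, mul_one] at this
    simpa using this
  have hH := H x' (s • co k) hn (le_antisymm hf1 hf2) hfx
  rw [_root_.smul_apply, smul_eq_mul, abs_mul, habs, one_mul] at hH
  have hp := norm_nonneg (t • z k)
  have r1 : |co k (F x' - F x - L (t • z k) - B (t • z k) (t • z k))| ≤ C * δ := by
    refine ((G.le_norm _ k).trans (h3 (t • z k) (hh.trans hδ1))).trans ?_
    have : ‖t • z k‖ ^ 3 ≤ δ := by
      calc ‖t • z k‖ ^ 3 ≤ δ ^ 3 := by gcongr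
        _ ≤ δ := by nlinarith [mul_pos hδ hδ]
    gcongr
  have r2 : |co k (L (t • z k))| ≤ C * δ :=
    ((G.le_norm _ k).trans (h1 _)).trans (by gcongr)
  have r3 : |co k (B (t • z k) (t • z k))| ≤ C * δ := by
    refine ((G.le_norm _ k).trans (h2 _)).trans ?_
    have : ‖t • z k‖ ^ 2 ≤ δ := by
      calc ‖t • z k‖ ^ 2 ≤ δ ^ 2 := by gcongr
        _ ≤ δ := by nlinarith
    gcongr
  rw [map_sub, map_sub, map_sub] at r1
  rw [abs_le] at r1 r2 r3 hH
  linarith [r1.1, r2.1, r3.1, hH.2, e1.1, e1.2, e2.1, e2.2]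

lemma upper' (G : IsG co z) {F : X → X} {C : ℝ} (hC : 0 ≤ C) (hF : Expa F C) {c : ℝ}
    (H : Bnd F c) {x : X} {n : ℕ} (hx : Rec co n x) (hx1 : ‖x‖ ≤ 1) (j : ℕ) :
    co j (F x) ≤ c := by
  apply le_of_forall_pos_le_add
  intro η hη
  set lam := η / 4 with hlam
  have hl : 0 < lam := by positivity
  set δ := min 1 (lam / (4 * C + 4)) with hδ
  have hδ0 : 0 < δ := lt_min one_pos (by positivity)
  have hδ1 : δ ≤ 1 := min_le_left _ _
  have hδ2 : δ * (4 * C + 4) ≤ lam := by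
    have : δ ≤ lam / (4 * C + 4) := min_le_right _ _
    rwa [le_div_iff₀ (by positivity)] at this
  have hCδ : C * δ ≤ lam / 4 := by nlinarith
  obtain ⟨x', n', j', h1, h2, h3, h4⟩ := walk_end G hC hF hl hδ0 hδ1 hCδ (j := j) hx hx1
  have h5 := last_jump G hC hF H hδ0 hδ1 h1 h2 h3
  have : 0 ≤ C * δ := by positivity
  nlinarith

theorem diag_le_radius (G : IsG co z) {k : ℕ} (hk : k ≠ 0)
    (A : ContinuousMultilinearMap ℝ (fun _ : Fin k => X) X) (y : X) :
    ‖A (fun _ => y)‖ ≤ polyRadius A * ‖y‖ ^ k := by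
  set c := polyRadius A with hc
  have hc0 : 0 ≤ c := polyRadius_nonneg A
  obtain ⟨C, hC, hE⟩ := expansion k X A
  obtain ⟨C', hC', hE'⟩ := expansion k X (-A)
  have H : Bnd (fun x => A (fun _ => x)) c := fun x f h1 h2 h3 => le_polyRadius A x f h1 h2 h3
  have H' : Bnd (fun x => (-A) (fun _ => x)) c := by
    intro x f h1 h2 h3
    have := H x f h1 h2 h3
    simpa using this
  have h0 : ∀ (x : X) (n : ℕ), Rec co n x → ‖x‖ ≤ 1 → ‖A (fun _ => x)‖ ≤ c := by
    intro x n hx hx1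
    apply G.norm_le _ _ hc0
    intro i
    have a1 := upper' G hC (F := fun x => A (fun _ => x)) hE H hx hx1 i
    have a2 := upper' G hC' (F := fun x => (-A) (fun _ => x)) hE' H' hx hx1 i
    simp only [ContinuousMultilinearMap.neg_apply, map_neg] at a2
    rw [abs_le]
    constructor <;> linarith
  have h1 : ∀ (w : X) (n : ℕ), Rec co n w → ‖A (fun _ => w)‖ ≤ c * ‖w‖ ^ k := by
    intro w n hw
    rcases eq_or_ne w 0 with rfl | hw0
    · rw [diag_zero hk, norm_zero]; positivity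
    · have hpos : 0 < ‖w‖ := norm_pos_iff.2 hw0
      have h2 := h0 _ n (hw.smul ‖w‖⁻¹) (by
        rw [norm_smul, norm_inv, norm_norm, inv_mul_cancel₀ hpos.ne'])
      have h3 : A (fun _ => w) = ‖w‖ ^ k • A (fun _ => ‖w‖⁻¹ • w) := by
        rw [← diag_smul, smul_smul, mul_inv_cancel₀ hpos.ne', one_smul]
      rw [h3, norm_smul, norm_pow, norm_norm, mul_comm]
      gcongr
  have hd : Dense {w : X | ∃ n, Rec co n w} := by
    rw [Metric.dense_iff]
    intro y r hr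
    obtain ⟨w, n, hw, hwd⟩ := G.dense y (r / 2) (by positivity)
    refine ⟨w, ?_, n, hw⟩
    rw [Metric.mem_ball, dist_comm, dist_eq_norm]
    linarith
  have hcl : IsClosed {y : X | ‖A (fun _ => y)‖ ≤ c * ‖y‖ ^ k} := by
    apply isClosed_le
    · exact (A.cont.comp (continuous_pi fun _ => continuous_id)).norm
    · fun_prop
  have : closure {w : X | ∃ n, Rec co n w} ⊆ {y : X | ‖A (fun _ => y)‖ ≤ c * ‖y‖ ^ k} :=
    hcl.closure_subset_iff.2 fun w ⟨n, hw⟩ => h1 w n hw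
  exact this (hd y)

theorem index_eq_one (G : IsG co z) [Nontrivial X] {k : ℕ} (hk : k ≠ 0) : polyIndex k X = 1 := by
  refine le_antisymm (index_le_one k) (le_index 1 fun A => ?_)
  rw [one_mul]
  apply polyNorm_le _ _ (polyRadius_nonneg A)
  intro x hx
  have := diag_le_radius G hk A x
  rwa [hx, one_pow, mul_one] at this

end Main

end Pool.Agent.H11Z.PolyIdx
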