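import Pool.Agent.H11Z.PolyIdx.Path
import Pool.Agent.H11Z.PolyIdx.Gur

set_option autoImplicit false

namespace Pool.Agent.H11Z.PolyIdx

universe u

section Rot

variable {V : Type u} [NormedAddCommGroup V] [NormedSpace ℝ V]

/-- two biorthogonal pairs -/
structure Bi (V : Type u) [NormedAddCommGroup V] [NormedSpace ℝ V] where
  e1 : V
  e2 : V
  u1 : V →L[ℝ] ℝ
  u2 : V →L[ℝ] ℝ
  n1 : ‖e1‖ ≤ 1
  n2 : ‖e2‖ ≤ 1
  h11 : u1 e1 = 1
  h12 : u1 e2 = 0
  h21 : u2 e1 = 0
  h22 : u2 e2 = 1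

variable (b : Bi V)

/-- the complex coordinate -/
noncomputable def Bi.cx : V →ₗ[ℝ] ℂ where
  toFun v := (b.u1 v : ℂ) + (b.u2 v : ℂ) * Complex.I
  map_add' x y := by simp only [map_add]; push_cast; ring
  map_smul' c x := by
    simp only [map_smul, smul_eq_mul, RingHom.id_apply, Complex.real_smul]; push_cast; ring

lemma Bi.cx_apply (v : V) : b.cx v = (b.u1 v : ℂ) + (b.u2 v : ℂ) * Complex.I := rfl

/-- the complementary part -/
noncomputable def Bi.rest : V →ₗ[ℝ] V where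
  toFun v := v - b.u1 v • b.e1 - b.u2 v • b.e2
  map_add' x y := by simp only [map_add]; module
  map_smul' c x := by simp only [map_smul, smul_eq_mul, RingHom.id_apply]; module

lemma Bi.rest_apply (v : V) : b.rest v = v - b.u1 v • b.e1 - b.u2 v • b.e2 := rfl

/-- the embedding -/
noncomputable def Bi.T : V →ₗ[ℝ] WithLp 1 (ℂ × V) where
  toFun v := WithLp.toLp 1 ((2 : ℝ) • b.cx v, b.rest v)
  map_add' x y := by
    rw [← WithLp.toLp_add, map_add, map_add]
    congr 1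
    exact Prod.ext (smul_add _ _ _) rfl
  map_smul' c x := by
    rw [RingHom.id_apply, ← WithLp.toLp_smul, map_smul, map_smul]
    congr 1
    exact Prod.ext (smul_comm _ _ _) rfl

lemma Bi.T_norm (v : V) : ‖b.T v‖ = 2 * ‖b.cx v‖ + ‖b.rest v‖ := by
  change ‖WithLp.toLp 1 ((2 : ℝ) • b.cx v, b.rest v)‖ = _
  rw [WithLp.prod_norm_eq_of_L1]
  change ‖(2 : ℝ) • b.cx v‖ + ‖b.rest v‖ = _
  rw [norm_smul]
  norm_num

lemma Bi.u1_le (v : V) : |b.u1 v| ≤ ‖b.cx v‖ := by
  have := Complex.abs_re_le_norm (b.cx v)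
  simpa [Bi.cx_apply] using this

lemma Bi.u2_le (v : V) : |b.u2 v| ≤ ‖b.cx v‖ := by
  have := Complex.abs_im_le_norm (b.cx v)
  simpa [Bi.cx_apply] using this

lemma Bi.cx_le (v : V) : ‖b.cx v‖ ≤ |b.u1 v| + |b.u2 v| := by
  have := Complex.norm_le_abs_re_add_abs_im (b.cx v)
  simpa [Bi.cx_apply] using this

/-- the renorming data -/
noncomputable def Bi.emb : Emb V (WithLp 1 (ℂ × V)) where
  T := b.T
  kap := 1 + 3 * (‖b.u1‖ + ‖b.u2‖)
  one_le := by
    have := norm_nonneg b.u1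
    have := norm_nonneg b.u2
    linarith
  lower := by
    intro v
    rw [b.T_norm]
    have e : v = b.rest v + b.u1 v • b.e1 + b.u2 v • b.e2 := by rw [b.rest_apply]; abel
    have a1 : ‖b.u1 v • b.e1‖ ≤ ‖b.cx v‖ := by
      rw [norm_smul, Real.norm_eq_abs]
      calc |b.u1 v| * ‖b.e1‖ ≤ ‖b.cx v‖ * 1 := by
            gcongr
            · exact b.u1_le v
            · exact b.n1
        _ = _ := mul_one _
    have a2 : ‖b.u2 v • b.e2‖ ≤ ‖b.cx v‖ := by
      rw [norm_smul, Real.norm_eq_abs]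
      calc |b.u2 v| * ‖b.e2‖ ≤ ‖b.cx v‖ * 1 := by
            gcongr
            · exact b.u2_le v
            · exact b.n2
        _ = _ := mul_one _
    calc ‖v‖ = ‖b.rest v + b.u1 v • b.e1 + b.u2 v • b.e2‖ := by rw [← e]
      _ ≤ ‖b.rest v‖ + ‖b.u1 v • b.e1‖ + ‖b.u2 v • b.e2‖ := norm_add₃_le
      _ ≤ _ := by linarith
  upper := by
    intro v
    rw [b.T_norm]
    have c1 : |b.u1 v| ≤ ‖b.u1‖ * ‖v‖ := b.u1.le_opNorm v
    have c2 : |b.u2 v| ≤ ‖b.u2‖ * ‖v‖ := b.u2.le_opNorm v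
    have c3 := b.cx_le v
    have a1 : ‖b.u1 v • b.e1‖ ≤ |b.u1 v| := by
      rw [norm_smul, Real.norm_eq_abs]
      calc |b.u1 v| * ‖b.e1‖ ≤ |b.u1 v| * 1 := by gcongr; exact b.n1
        _ = _ := mul_one _
    have a2 : ‖b.u2 v • b.e2‖ ≤ |b.u2 v| := by
      rw [norm_smul, Real.norm_eq_abs]
      calc |b.u2 v| * ‖b.e2‖ ≤ |b.u2 v| * 1 := by gcongr; exact b.n2
        _ = _ := mul_one _
    have a3 : ‖b.rest v‖ ≤ ‖v‖ + ‖b.u1 v • b.e1‖ + ‖b.u2 v • b.e2‖ := by
      rw [b.rest_apply]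
      calc _ ≤ ‖v - b.u1 v • b.e1‖ + ‖b.u2 v • b.e2‖ := norm_sub_le _ _
        _ ≤ _ := by gcongr; exact norm_sub_le _ _
    nlinarith

/-- the rotation -/
noncomputable def Bi.J : V →L[ℝ] V := b.u1.smulRight b.e2 - b.u2.smulRight b.e1

lemma Bi.J_apply (v : V) : b.J v = b.u1 v • b.e2 - b.u2 v • b.e1 := rfl

lemma Bi.T_rot (v : V) (t : ℝ) : ‖b.T (v + t • b.J v)‖ ≤ (1 + t ^ 2) * ‖b.T v‖ := by
  rw [b.T_norm, b.T_norm]
  have f1 : b.u1 (v + t • b.J v) = b.u1 v - t * b.u2 v := by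
    simp only [b.J_apply, map_add, map_smul, map_sub, smul_eq_mul, b.h11, b.h12]; ring
  have f2 : b.u2 (v + t • b.J v) = b.u2 v + t * b.u1 v := by
    simp only [b.J_apply, map_add, map_smul, map_sub, smul_eq_mul, b.h21, b.h22]; ring
  have e1 : b.rest (v + t • b.J v) = b.rest v := by
    rw [b.rest_apply, b.rest_apply, f1, f2, b.J_apply]; module
  have e2 : b.cx (v + t • b.J v) = (1 + t * Complex.I) * b.cx v := by
    rw [b.cx_apply, b.cx_apply, f1, f2]
    push_cast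
    linear_combination (-(t : ℂ) * (b.u2 v : ℂ)) * Complex.I_mul_I
  have e3 : ‖(1 + t * Complex.I : ℂ)‖ ≤ 1 + t ^ 2 := by
    rw [← sq_le_sq₀ (norm_nonneg _) (by positivity), Complex.sq_norm, Complex.normSq_apply]
    simp
    nlinarith [sq_nonneg t, sq_nonneg (t ^ 2)]
  rw [e1, e2, norm_mul]
  have a1 := norm_nonneg (b.cx v)
  have a2 := norm_nonneg (b.rest v)
  have a3 : ‖(1 + t * Complex.I : ℂ)‖ * ‖b.cx v‖ ≤ (1 + t ^ 2) * ‖b.cx v‖ := by gcongr
  nlinarith [mul_nonneg (sq_nonneg t) a2]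

lemma zero_of_quad {a : ℝ} (h : ∀ t : ℝ, t * a ≤ t ^ 2) : a = 0 := by
  have := h (a / 2)
  nlinarith [sq_nonneg a]

lemma index_start {n : ℕ} : polyIndex (n + 1) (Vt b.emb 0) ≤ 0 := by
  let e := toVL b.emb 0
  let J' : Vt b.emb 0 →L[ℝ] Vt b.emb 0 :=
    (e.symm : V →L[ℝ] Vt b.emb 0).comp (b.J.comp (e : Vt b.emb 0 →L[ℝ] V))
  let w : Vt b.emb 0 →L[ℝ] ℝ := b.u1.comp (e : Vt b.emb 0 →L[ℝ] V)
  let M : ContinuousMultilinearMap ℝ (fun _ : Fin n => Vt b.emb 0) ℝ :=
    (ContinuousMultilinearMap.mkPiAlgebra ℝ (Fin n) ℝ).compContinuousLinearMap (fun _ => w)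
  let A0 : ContinuousMultilinearMap ℝ (fun _ : Fin n => Vt b.emb 0)
      (Vt b.emb 0 →L[ℝ] Vt b.emb 0) := M.smulRight J'
  let A : ContinuousMultilinearMap ℝ (fun _ : Fin (n + 1) => Vt b.emb 0) (Vt b.emb 0) :=
    ContinuousMultilinearMap.uncurryRight (Ei := fun _ : Fin (n + 1) => Vt b.emb 0) A0
  have hA : ∀ x, A (fun _ => x) = (w x) ^ n • J' x := by
    intro x
    change (M (fun _ => x) • J') x = _
    simp [M]
  have hJ : ∀ x, toV b.emb 0 (J' x) = b.J (toV b.emb 0 x) := fun _ => rfl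
  have hr : polyRadius A ≤ 0 := by
    apply polyRadius_le _ _ le_rfl
    intro x f hx hf hfx
    have : f (J' x) = 0 := by
      apply zero_of_quad
      intro t
      have h1 : ‖x + t • J' x‖ ≤ 1 + t ^ 2 := by
        rw [norm_start, map_add, map_smul, hJ]
        have h2 := b.T_rot (toV b.emb 0 x) t
        have h3 : ‖b.T (toV b.emb 0 x)‖ = 1 := by rw [← hx, norm_start]; rfl
        rw [h3, mul_one] at h2
        exact h2
      have h4 : f (x + t • J' x) ≤ 1 + t ^ 2 := by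
        calc f (x + t • J' x) ≤ ‖f (x + t • J' x)‖ := le_abs_self _
          _ ≤ ‖f‖ * ‖x + t • J' x‖ := f.le_opNorm _
          _ ≤ 1 + t ^ 2 := by rw [hf, one_mul]; exact h1
      rw [map_add, map_smul, hfx, smul_eq_mul] at h4
      linarith
    rw [hA, map_smul, this]
    simp
  have hpos : 0 < polyNorm A := by
    rcases (polyNorm_nonneg A).eq_or_lt with h | h
    · exfalso
      have h1 := diag_le (Nat.succ_ne_zero n) A ((toV b.emb 0).symm b.e1)
      rw [← h, zero_mul, norm_le_zero_iff, hA] at h1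
      have h2 : w ((toV b.emb 0).symm b.e1) = 1 := b.h11
      rw [h2, one_pow, one_smul] at h1
      have h3 := congrArg (fun y => b.u2 (toV b.emb 0 y)) h1
      simp only [hJ, LinearEquiv.apply_symm_apply, map_zero, b.J_apply, map_sub, map_smul,
        smul_eq_mul, b.h11, b.h21, b.h22] at h3
      norm_num at h3
    · exact h
  have h := (index_mul_le A).trans hr
  by_contra hc
  push Not at hc
  have := mul_pos hc hpos
  linarith

end Rot

section Concrete

open Pool.Agent.Helper184.Gur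

/-- the space, in the universe `u` -/
abbrev UX : Type u := ULift.{u} GX

/-- coordinates -/
noncomputable def uco (i : ℕ) : UX.{u} →L[ℝ] ℝ :=
  (coord i).comp (ContinuousLinearEquiv.ulift : ULift.{u} GX ≃L[ℝ] GX).toContinuousLinearMap

lemma uco_apply (i : ℕ) (x : UX.{u}) : uco i x = coord i x.down := rfl

/-- bumps -/
noncomputable def uz (k : ℕ) : UX.{u} := ULift.up (bump k)

theorem isUG : IsG uco.{u} uz.{u} where
  norm_le := fun x C hC h => isG.norm_le x.down C hC h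
  le_norm := fun x i => isG.le_norm x.down i
  dense := fun x δ hδ => by
    obtain ⟨w, n, hw, h⟩ := isG.dense x.down δ hδ
    exact ⟨ULift.up w, n, hw, h⟩
  z_lt := fun k i hi => isG.z_lt k i hi
  z_self := fun k => isG.z_self k
  z_rec := fun k => isG.z_rec k

/-- the biorthogonal system -/
noncomputable def biOf {X : Type u} [NormedAddCommGroup X] [NormedSpace ℝ X]
    {co : ℕ → X →L[ℝ] ℝ} {z : ℕ → X} (G : IsG co z) : Bi X where
  e1 := z 1
  e2 := z 2
  u1 := co 1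
  u2 := co 2 - (co 2 (z 1)) • co 1
  n1 := norm_z_le G 1
  n2 := norm_z_le G 2
  h11 := G.z_self 1
  h12 := G.z_lt 2 1 (by norm_num)
  h21 := by
    rw [_root_.sub_apply, _root_.smul_apply, G.z_self 1]; simp
  h22 := by
    rw [_root_.sub_apply, _root_.smul_apply, G.z_self 2, G.z_lt 2 1 (by norm_num)]; simp

/-- the biorthogonal system in the concrete space -/
noncomputable def ubi : Bi UX.{u} := biOf isUG

instance : Nontrivial UX.{u} := ⟨⟨uz 1, 0, fun h => by
  have h1 := isUG.{u}.z_self 1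
  rw [h, map_zero] at h1
  exact zero_ne_one h1⟩⟩

theorem main (k : ℕ) (hk : 1 ≤ k) : realRange.{u} k = Set.Icc 0 1 := by
  obtain ⟨n, rfl⟩ : ∃ n, k = n + 1 := ⟨k - 1, by omega⟩
  have hm : n + 1 ≠ 0 := Nat.succ_ne_zero n
  ext r
  constructor
  · rintro ⟨X, i1, i2, _, h3, rfl⟩
    exact ⟨index_nonneg, index_le_one (n + 1)⟩
  · rintro ⟨hr1, hr2⟩
    have hstart := index_start ubi.{u} (n := n)
    have hend := index_end ubi.{u}.emb hm
    rw [index_eq_one isUG hm] at hend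
    have hivt := intermediate_value_Icc (show (0 : ℝ) ≤ Real.pi / 2 by positivity)
      (index_path_continuous ubi.{u}.emb hm).continuousOn
    obtain ⟨θ, -, hθ⟩ := hivt ⟨hstart.trans hr1, hr2.trans hend⟩
    exact ⟨Vt ubi.emb θ, inferInstance, inferInstance, Vt_complete _ θ, inferInstance, hθ.symm⟩

end Concrete

end Pool.Agent.H11Z.PolyIdx
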