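import Pool.Agent.H11Z.PolyIdx.Basic

set_option autoImplicit false

namespace Pool.Agent.H11Z.PolyIdx

universe u

/-- An isomorphic embedding that does not decrease norms. -/
structure Emb (V Y : Type u) [NormedAddCommGroup V] [NormedSpace ℝ V] [NormedAddCommGroup Y]
    [NormedSpace ℝ Y] where
  T : V →ₗ[ℝ] Y
  kap : ℝ
  one_le : 1 ≤ kap
  lower : ∀ v, ‖v‖ ≤ ‖T v‖
  upper : ∀ v, ‖T v‖ ≤ kap * ‖v‖

section Path

variable {V Y : Type u} [NormedAddCommGroup V] [NormedSpace ℝ V] [NormedAddCommGroup Y]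
    [NormedSpace ℝ Y] (E : Emb V Y)

/-- the embedding that defines the norm with parameter `θ` -/
noncomputable def pathMap (θ : ℝ) : V →ₗ[ℝ] WithLp 1 (Y × V) where
  toFun x := WithLp.toLp 1 (|Real.cos θ| • E.T x, |Real.sin θ| • x)
  map_add' x y := by
    rw [← WithLp.toLp_add, map_add]
    congr 1
    refine Prod.ext ?_ ?_
    · exact smul_add _ _ _
    · exact smul_add _ _ _
  map_smul' c x := by
    rw [RingHom.id_apply, ← WithLp.toLp_smul, map_smul]
    congr 1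
    exact Prod.ext (smul_comm _ _ _) (smul_comm _ _ _)

/-- `V` with the norm `|cos θ| ‖T x‖ + |sin θ| ‖x‖`. -/
def Vt (_E : Emb V Y) (_θ : ℝ) : Type u := V

instance (θ : ℝ) : AddCommGroup (Vt E θ) := inferInstanceAs (AddCommGroup V)

instance (θ : ℝ) : Module ℝ (Vt E θ) := inferInstanceAs (Module ℝ V)

instance [Nontrivial V] (θ : ℝ) : Nontrivial (Vt E θ) := inferInstanceAs (Nontrivial V)

/-- forget the norm -/
def toV (θ : ℝ) : Vt E θ ≃ₗ[ℝ] V := LinearEquiv.refl ℝ V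

lemma pathMap_norm (θ : ℝ) (x : V) :
    ‖pathMap E θ x‖ = |Real.cos θ| * ‖E.T x‖ + |Real.sin θ| * ‖x‖ := by
  change ‖WithLp.toLp 1 (|Real.cos θ| • E.T x, |Real.sin θ| • x)‖ = _
  rw [WithLp.prod_norm_eq_of_L1]
  change ‖|Real.cos θ| • E.T x‖ + ‖|Real.sin θ| • x‖ = _
  rw [norm_smul, norm_smul, Real.norm_eq_abs, Real.norm_eq_abs, abs_abs, abs_abs]

lemma one_le_weights (θ : ℝ) : 1 ≤ |Real.cos θ| + |Real.sin θ| := by
  have h1 := Real.cos_sq_add_sin_sq θ
  have h2 := abs_nonneg (Real.cos θ)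
  have h3 := abs_nonneg (Real.sin θ)
  have h4 := sq_abs (Real.cos θ)
  have h5 := sq_abs (Real.sin θ)
  nlinarith [mul_nonneg h2 h3]

lemma pathMap_ge (θ : ℝ) (x : V) : ‖x‖ ≤ ‖pathMap E θ x‖ := by
  rw [pathMap_norm]
  have h1 := one_le_weights θ
  have h2 := E.lower x
  calc ‖x‖ = 1 * ‖x‖ := (one_mul _).symm
    _ ≤ (|Real.cos θ| + |Real.sin θ|) * ‖x‖ := by gcongr
    _ = |Real.cos θ| * ‖x‖ + |Real.sin θ| * ‖x‖ := by ring
    _ ≤ _ := by gcongr

lemma pathMap_le (θ : ℝ) (x : V) : ‖pathMap E θ x‖ ≤ (E.kap + 1) * ‖x‖ := by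
  rw [pathMap_norm]
  have h1 := Real.abs_cos_le_one θ
  have h2 := Real.abs_sin_le_one θ
  have h3 := E.upper x
  calc |Real.cos θ| * ‖E.T x‖ + |Real.sin θ| * ‖x‖ ≤ 1 * (E.kap * ‖x‖) + 1 * ‖x‖ := by gcongr
    _ = _ := by ring

lemma pathMap_inj (θ : ℝ) :
    Function.Injective ((pathMap E θ).comp (toV E θ).toLinearMap) := by
  rw [← LinearMap.ker_eq_bot, LinearMap.ker_eq_bot']
  intro x hx
  have h := pathMap_ge E θ (toV E θ x)
  have h2 : pathMap E θ (toV E θ x) = 0 := hx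
  rw [h2, norm_zero] at h
  have h3 : toV E θ x = 0 := norm_le_zero_iff.1 h
  exact (toV E θ).map_eq_zero_iff.1 h3

noncomputable instance (θ : ℝ) : NormedAddCommGroup (Vt E θ) :=
  NormedAddCommGroup.induced (Vt E θ) _ ((pathMap E θ).comp (toV E θ).toLinearMap)
    (pathMap_inj E θ)

noncomputable instance (θ : ℝ) : NormedSpace ℝ (Vt E θ) :=
  NormedSpace.induced ℝ (Vt E θ) _ ((pathMap E θ).comp (toV E θ).toLinearMap)

lemma Vt_norm (θ : ℝ) (x : Vt E θ) :
    ‖x‖ = |Real.cos θ| * ‖E.T (toV E θ x)‖ + |Real.sin θ| * ‖toV E θ x‖ :=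
  pathMap_norm E θ (toV E θ x)

lemma Vt_norm_ge (θ : ℝ) (x : Vt E θ) : ‖toV E θ x‖ ≤ ‖x‖ :=
  pathMap_ge E θ (toV E θ x)

lemma Vt_norm_le (θ : ℝ) (x : Vt E θ) : ‖x‖ ≤ (E.kap + 1) * ‖toV E θ x‖ :=
  pathMap_le E θ (toV E θ x)

/-- the identity as a continuous linear equivalence -/
noncomputable def toVL (θ : ℝ) : Vt E θ ≃L[ℝ] V :=
  (toV E θ).toContinuousLinearEquivOfBounds 1 (E.kap + 1)
    (fun x => by rw [one_mul]; exact Vt_norm_ge E θ x)
    (fun y => by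
      have := Vt_norm_le E θ ((toV E θ).symm y)
      rwa [LinearEquiv.apply_symm_apply] at this)

lemma toVL_apply (θ : ℝ) (x : Vt E θ) : toVL E θ x = toV E θ x := rfl

lemma Vt_complete [CompleteSpace V] (θ : ℝ) : CompleteSpace (Vt E θ) :=
  (completeSpace_congr (e := (toVL E θ).toEquiv) (toVL E θ).isUniformEmbedding).2 inferInstance

/-- the isometric embedding of `Vt E θ` -/
noncomputable def isoMap (θ : ℝ) : Vt E θ →ₗᵢ[ℝ] WithLp 1 (Y × V) :=
  ⟨(pathMap E θ).comp (toV E θ).toLinearMap, fun _ => rfl⟩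

/-- Every norm-one functional that attains its norm splits into two norming functionals. -/
lemma split_functional (θ : ℝ) (x : Vt E θ) (f : Vt E θ →L[ℝ] ℝ) (hx : ‖x‖ = 1)
    (hf : ‖f‖ = 1) (hfx : f x = 1) :
    ∃ (g₀ : Y →L[ℝ] ℝ) (g₁ : V →L[ℝ] ℝ),
      ‖g₀‖ ≤ 1 ∧ ‖g₁‖ ≤ 1 ∧ g₀ (E.T (toV E θ x)) = ‖E.T (toV E θ x)‖ ∧
      g₁ (toV E θ x) = ‖toV E θ x‖ ∧
      ∀ u, f u = |Real.cos θ| * g₀ (E.T (toV E θ u)) + |Real.sin θ| * g₁ (toV E θ u) := by
  obtain ⟨F, hF, hFn⟩ := exists_extension_norm_eq (LinearMap.range (isoMap E θ).toLinearMap)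
    (f.comp ((isoMap E θ).equivRange.symm.toContinuousLinearEquiv :
      LinearMap.range (isoMap E θ).toLinearMap →L[ℝ] Vt E θ))
  have hF1 : ‖F‖ ≤ 1 := by
    rw [hFn]
    apply ContinuousLinearMap.opNorm_le_bound _ zero_le_one
    intro y
    rw [one_mul]
    calc ‖f ((isoMap E θ).equivRange.symm y)‖ ≤ ‖f‖ * ‖(isoMap E θ).equivRange.symm y‖ :=
          f.le_opNorm _
      _ = ‖y‖ := by rw [hf, one_mul, LinearIsometryEquiv.norm_map]
  have hFu : ∀ u, F (isoMap E θ u) = f u := by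
    intro u
    have h1 := hF ((isoMap E θ).equivRange u)
    have h2 : (((isoMap E θ).equivRange u : LinearMap.range (isoMap E θ).toLinearMap) :
      WithLp 1 (Y × V)) = isoMap E θ u := rfl
    rw [h2] at h1
    rw [h1]
    change f ((isoMap E θ).equivRange.symm ((isoMap E θ).equivRange u)) = f u
    rw [LinearIsometryEquiv.symm_apply_apply]
  let g₀ : Y →L[ℝ] ℝ :=
    LinearMap.mkContinuous
      { toFun := fun y => F (WithLp.toLp 1 (y, 0))
        map_add' := fun y z => by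
          rw [← map_add, ← WithLp.toLp_add]
          congr 2
          exact Prod.ext rfl (add_zero (0 : V)).symm
        map_smul' := fun c y => by
          rw [RingHom.id_apply, ← map_smul, ← WithLp.toLp_smul]
          congr 2
          exact Prod.ext rfl (smul_zero (A := V) c).symm } 1 (by
      intro y
      have h1 : ‖WithLp.toLp 1 ((y, 0) : Y × V)‖ = ‖y‖ := by
        rw [WithLp.prod_norm_eq_of_L1]
        change ‖y‖ + ‖(0 : V)‖ = ‖y‖
        rw [norm_zero, add_zero]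
      calc ‖F (WithLp.toLp 1 (y, 0))‖ ≤ ‖F‖ * ‖WithLp.toLp 1 ((y, 0) : Y × V)‖ := F.le_opNorm _
        _ ≤ 1 * ‖y‖ := by rw [h1]; gcongr)
  let g₁ : V →L[ℝ] ℝ :=
    LinearMap.mkContinuous
      { toFun := fun y => F (WithLp.toLp 1 (0, y))
        map_add' := fun y z => by
          rw [← map_add, ← WithLp.toLp_add]
          congr 2
          exact Prod.ext (add_zero _).symm rfl
        map_smul' := fun c y => by
          rw [RingHom.id_apply, ← map_smul, ← WithLp.toLp_smul]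
          congr 2
          exact Prod.ext (smul_zero (A := Y) c).symm rfl } 1 (by
      intro y
      have h1 : ‖WithLp.toLp 1 ((0, y) : Y × V)‖ = ‖y‖ := by
        rw [WithLp.prod_norm_eq_of_L1]
        change ‖(0 : Y)‖ + ‖y‖ = ‖y‖
        rw [norm_zero, zero_add]
      calc ‖F (WithLp.toLp 1 (0, y))‖ ≤ ‖F‖ * ‖WithLp.toLp 1 ((0, y) : Y × V)‖ := F.le_opNorm _
        _ ≤ 1 * ‖y‖ := by rw [h1]; gcongr)
  have hg₀ : ∀ y, g₀ y = F (WithLp.toLp 1 (y, 0)) := fun _ => rfl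
  have hg₁ : ∀ y, g₁ y = F (WithLp.toLp 1 (0, y)) := fun _ => rfl
  have hg₀n : ‖g₀‖ ≤ 1 := LinearMap.mkContinuous_norm_le _ zero_le_one _
  have hg₁n : ‖g₁‖ ≤ 1 := LinearMap.mkContinuous_norm_le _ zero_le_one _
  have hdec : ∀ u, f u = |Real.cos θ| * g₀ (E.T (toV E θ u)) +
        |Real.sin θ| * g₁ (toV E θ u) := by
    intro u
    have e1 : |Real.cos θ| * g₀ (E.T (toV E θ u)) =
        F (WithLp.toLp 1 (|Real.cos θ| • E.T (toV E θ u), 0)) := by
      rw [← hg₀, g₀.map_smul, smul_eq_mul]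
    have e2 : |Real.sin θ| * g₁ (toV E θ u) =
        F (WithLp.toLp 1 (0, |Real.sin θ| • toV E θ u)) := by
      rw [← hg₁, g₁.map_smul, smul_eq_mul]
    rw [← hFu u, e1, e2, ← map_add, ← WithLp.toLp_add]
    congr 1
    change WithLp.toLp 1 (|Real.cos θ| • E.T (toV E θ u), |Real.sin θ| • toV E θ u) = _
    congr 1
    refine Prod.ext ?_ ?_
    · exact (add_zero _).symm
    · exact (zero_add _).symm
  have hxn := Vt_norm E θ x
  rw [hx] at hxn
  have hx1 := hdec x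
  rw [hfx] at hx1
  have hb0 : g₀ (E.T (toV E θ x)) ≤ ‖E.T (toV E θ x)‖ := by
    calc _ ≤ ‖g₀ (E.T (toV E θ x))‖ := le_abs_self _
      _ ≤ ‖g₀‖ * ‖E.T (toV E θ x)‖ := g₀.le_opNorm _
      _ ≤ 1 * ‖E.T (toV E θ x)‖ := by gcongr
      _ = _ := one_mul _
  have hb1 : g₁ (toV E θ x) ≤ ‖toV E θ x‖ := by
    calc _ ≤ ‖g₁ (toV E θ x)‖ := le_abs_self _
      _ ≤ ‖g₁‖ * ‖toV E θ x‖ := g₁.le_opNorm _
      _ ≤ 1 * ‖toV E θ x‖ := by gcongr
      _ = _ := one_mul _
  have hc0 := mul_le_mul_of_nonneg_left hb0 (abs_nonneg (Real.cos θ))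
  have hc1 := mul_le_mul_of_nonneg_left hb1 (abs_nonneg (Real.sin θ))
  have hs0 : |Real.cos θ| * g₀ (E.T (toV E θ x)) = |Real.cos θ| * ‖E.T (toV E θ x)‖ := by linarith
  have hs1 : |Real.sin θ| * g₁ (toV E θ x) = |Real.sin θ| * ‖toV E θ x‖ := by linarith
  obtain ⟨G₀, hG₀n, hG₀x, hG₀⟩ : ∃ G₀ : Y →L[ℝ] ℝ,
      ‖G₀‖ ≤ 1 ∧ G₀ (E.T (toV E θ x)) = ‖E.T (toV E θ x)‖ ∧
      ∀ y, |Real.cos θ| * g₀ y = |Real.cos θ| * G₀ y := by
    by_cases hc : |Real.cos θ| = 0
    · obtain ⟨G, hG, hGx⟩ := exists_dual_vector'' ℝ (E.T (toV E θ x))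
      exact ⟨G, hG, hGx, fun y => by rw [hc]; simp⟩
    · exact ⟨g₀, hg₀n, mul_left_cancel₀ hc hs0, fun y => rfl⟩
  obtain ⟨G₁, hG₁n, hG₁x, hG₁⟩ : ∃ G₁ : V →L[ℝ] ℝ,
      ‖G₁‖ ≤ 1 ∧ G₁ (toV E θ x) = ‖toV E θ x‖ ∧
      ∀ y, |Real.sin θ| * g₁ y = |Real.sin θ| * G₁ y := by
    by_cases hc : |Real.sin θ| = 0
    · obtain ⟨G, hG, hGx⟩ := exists_dual_vector'' ℝ (toV E θ x)
      exact ⟨G, hG, hGx, fun y => by rw [hc]; simp⟩
    · exact ⟨g₁, hg₁n, mul_left_cancel₀ hc hs1, fun y => rfl⟩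
  exact ⟨G₀, G₁, hG₀n, hG₁n, hG₀x, hG₁x, fun u => by rw [hdec u, hG₀, hG₁]⟩

/-- distance between the parameters -/
noncomputable def dpar (θ θ' : ℝ) : ℝ :=
  E.kap * (|(|Real.cos θ| - |Real.cos θ'|)| + |(|Real.sin θ| - |Real.sin θ'|)|)

lemma dpar_nonneg (θ θ' : ℝ) : 0 ≤ dpar E θ θ' := by
  have := E.one_le
  unfold dpar
  positivity

lemma dpar_comm (θ θ' : ℝ) : dpar E θ θ' = dpar E θ' θ := by
  unfold dpar
  rw [abs_sub_comm |Real.cos θ|, abs_sub_comm |Real.sin θ|]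

lemma weights_diff (θ θ' η : ℝ) (u : V) :
    |(|Real.cos θ| - |Real.cos θ'|)| * ‖E.T u‖ +
      |(|Real.sin θ| - |Real.sin θ'|)| * ‖u‖ ≤ dpar E θ θ' * ‖pathMap E η u‖ := by
  have h1 := E.upper u
  have h2 := pathMap_ge E η u
  have hk := E.one_le
  have hk0 : 0 ≤ E.kap := by linarith
  calc _ ≤ |(|Real.cos θ| - |Real.cos θ'|)| * (E.kap * ‖pathMap E η u‖) +
      |(|Real.sin θ| - |Real.sin θ'|)| * (E.kap * ‖pathMap E η u‖) := by
        gcongr
        · exact h1.trans (by gcongr)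
        · calc ‖u‖ = 1 * ‖u‖ := (one_mul _).symm
            _ ≤ E.kap * ‖pathMap E η u‖ := by gcongr
    _ = _ := by unfold dpar; ring

lemma index_path_le [Nontrivial V] {k : ℕ} (hk : k ≠ 0) (θ θ' : ℝ) :
    polyIndex k (Vt E θ) ≤ (1 + dpar E θ θ') ^ (2 * k + 1) * polyIndex k (Vt E θ')
      + dpar E θ θ' * (1 + dpar E θ θ') ^ (2 * k + 2) := by
  have hn1 := abs_nonneg (Real.cos θ)
  have hn2 := abs_nonneg (Real.cos θ')
  have hn3 := abs_nonneg (Real.sin θ)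
  have hn4 := abs_nonneg (Real.sin θ')
  have hcomp : ∀ η η' : ℝ, ∀ u : V, ‖pathMap E η u‖ ≤
      (1 + dpar E η η') * ‖pathMap E η' u‖ := by
    intro η η' u
    have h := weights_diff E η η' η' u
    have h1 := pathMap_norm E η u
    have h2 := pathMap_norm E η' u
    have h3 : (|Real.cos η| - |Real.cos η'|) * ‖E.T u‖ ≤
        |(|Real.cos η| - |Real.cos η'|)| * ‖E.T u‖ := by
      gcongr
      exact le_abs_self _
    have h4 : (|Real.sin η| - |Real.sin η'|) * ‖u‖ ≤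
        |(|Real.sin η| - |Real.sin η'|)| * ‖u‖ := by
      gcongr
      exact le_abs_self _
    nlinarith
  refine index_compare hk
    ((toV E θ).trans (toV E θ').symm) (dpar E θ θ') (dpar_nonneg E θ θ') ?_ ?_ ?_
  · intro x
    have := hcomp θ' θ (toV E θ x)
    rw [dpar_comm] at this
    exact this
  · intro x
    exact hcomp θ θ' (toV E θ x)
  · intro x f hx hf hfx
    obtain ⟨g₀, g₁, h0n, h1n, h0x, h1x, hfu⟩ := split_functional E θ x f hx hf hfx
    let gl : Vt E θ' →ₗ[ℝ] ℝ :=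
      |Real.cos θ'| • (g₀.toLinearMap ∘ₗ E.T ∘ₗ (toV E θ').toLinearMap) +
      |Real.sin θ'| • (g₁.toLinearMap ∘ₗ (toV E θ').toLinearMap)
    have hgl : ∀ u, gl u = |Real.cos θ'| * g₀ (E.T (toV E θ' u)) +
        |Real.sin θ'| * g₁ (toV E θ' u) := fun _ => rfl
    have hgb : ∀ u, ‖gl u‖ ≤ 1 * ‖u‖ := by
      intro u
      rw [hgl, one_mul, Vt_norm]
      calc _ ≤ ‖|Real.cos θ'| * g₀ (E.T (toV E θ' u))‖ +
            ‖|Real.sin θ'| * g₁ (toV E θ' u)‖ := norm_add_le _ _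
        _ = |Real.cos θ'| * ‖g₀ (E.T (toV E θ' u))‖ +
            |Real.sin θ'| * ‖g₁ (toV E θ' u)‖ := by
          rw [norm_mul, norm_mul, Real.norm_eq_abs (|Real.cos θ'|),
            Real.norm_eq_abs (|Real.sin θ'|), abs_abs, abs_abs]
        _ ≤ |Real.cos θ'| * (1 * ‖E.T (toV E θ' u)‖) +
            |Real.sin θ'| * (1 * ‖toV E θ' u‖) := by
          gcongr
          · exact (g₀.le_opNorm _).trans (by gcongr)
          · exact (g₁.le_opNorm _).trans (by gcongr)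
        _ = _ := by rw [one_mul, one_mul]
    refine ⟨gl.mkContinuous 1 hgb, LinearMap.mkContinuous_norm_le _ zero_le_one _, ?_, ?_⟩
    · rw [LinearMap.mkContinuous_apply, hgl, Vt_norm]
      change |Real.cos θ'| * g₀ (E.T (toV E θ x)) + |Real.sin θ'| * g₁ (toV E θ x) = _
      rw [h0x, h1x]
      rfl
    · intro u
      rw [LinearMap.mkContinuous_apply, hgl, hfu]
      change ‖|Real.cos θ'| * g₀ (E.T (toV E θ u)) +
        |Real.sin θ'| * g₁ (toV E θ u) - (|Real.cos θ| *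
        g₀ (E.T (toV E θ u)) + |Real.sin θ| * g₁ (toV E θ u))‖ ≤ _
      have e1 : |Real.cos θ'| * g₀ (E.T (toV E θ u)) +
        |Real.sin θ'| * g₁ (toV E θ u) - (|Real.cos θ| *
        g₀ (E.T (toV E θ u)) + |Real.sin θ| * g₁ (toV E θ u)) =
        (|Real.cos θ'| - |Real.cos θ|) * g₀ (E.T (toV E θ u)) +
        (|Real.sin θ'| - |Real.sin θ|) * g₁ (toV E θ u) := by
        ring
      rw [e1]
      calc _ ≤ ‖(|Real.cos θ'| - |Real.cos θ|) * g₀ (E.T (toV E θ u))‖ +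
            ‖(|Real.sin θ'| - |Real.sin θ|) * g₁ (toV E θ u)‖ := norm_add_le _ _
        _ = |(|Real.cos θ'| - |Real.cos θ|)| * ‖g₀ (E.T (toV E θ u))‖ +
            |(|Real.sin θ'| - |Real.sin θ|)| * ‖g₁ (toV E θ u)‖ := by
          rw [norm_mul, norm_mul, Real.norm_eq_abs (|Real.cos θ'| - |Real.cos θ|),
            Real.norm_eq_abs (|Real.sin θ'| - |Real.sin θ|)]
        _ ≤ |(|Real.cos θ'| - |Real.cos θ|)| * (1 * ‖E.T (toV E θ u)‖) +
            |(|Real.sin θ'| - |Real.sin θ|)| * (1 * ‖toV E θ u‖) := by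
          gcongr
          · exact (g₀.le_opNorm _).trans (by gcongr)
          · exact (g₁.le_opNorm _).trans (by gcongr)
        _ = |(|Real.cos θ'| - |Real.cos θ|)| * ‖E.T (toV E θ u)‖ +
            |(|Real.sin θ'| - |Real.sin θ|)| * ‖toV E θ u‖ := by rw [one_mul, one_mul]
        _ ≤ dpar E θ' θ * ‖pathMap E θ (toV E θ u)‖ := weights_diff E θ' θ θ _
        _ = dpar E θ θ' * ‖u‖ := by rw [dpar_comm]; rfl

lemma dpar_tendsto (θ : ℝ) :
    Filter.Tendsto (fun θ' => dpar E θ θ') (nhds θ) (nhds 0) := by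
  have hc : Continuous (fun θ' => dpar E θ θ') := by
    unfold dpar
    fun_prop
  have h0 : dpar E θ θ = 0 := by unfold dpar; simp
  have := hc.tendsto θ
  rwa [h0] at this

/-- continuity of the index along the path -/
lemma index_path_continuous [Nontrivial V] {k : ℕ} (hk : k ≠ 0) :
    Continuous (fun θ => polyIndex k (Vt E θ)) := by
  rw [continuous_iff_continuousAt]
  intro θ
  set φ : ℝ → ℝ := fun θ => polyIndex k (Vt E θ) with hφ
  have hd := dpar_tendsto E θ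
  set p := 2 * k + 1 with hp
  set q := 2 * k + 2 with hq
  have hup : ∀ θ', φ θ' ≤ (1 + dpar E θ θ') ^ p * φ θ + dpar E θ θ' * (1 + dpar E θ θ') ^ q := by
    intro θ'
    have := index_path_le E hk θ' θ
    rw [dpar_comm E θ' θ] at this
    exact this
  have hlow : ∀ θ', (φ θ - dpar E θ θ' * (1 + dpar E θ θ') ^ q) / (1 + dpar E θ θ') ^ p ≤ φ θ' := by
    intro θ'
    have h1 := index_path_le E hk θ θ'
    have h2 := dpar_nonneg E θ θ'
    rw [div_le_iff₀ (by positivity)]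
    have : φ θ ≤ (1 + dpar E θ θ') ^ p * φ θ' + dpar E θ θ' * (1 + dpar E θ θ') ^ q := h1
    linarith
  have hcu : Continuous (fun d : ℝ => (1 + d) ^ p * φ θ + d * (1 + d) ^ q) := by fun_prop
  have hlu : Filter.Tendsto (fun θ' => (1 + dpar E θ θ') ^ p * φ θ +
      dpar E θ θ' * (1 + dpar E θ θ') ^ q) (nhds θ) (nhds (φ θ)) := by
    have := (hcu.tendsto 0).comp hd
    simpa [Function.comp_def] using this
  have hll : Filter.Tendsto (fun θ' => (φ θ - dpar E θ θ' * (1 + dpar E θ θ') ^ q) /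
      (1 + dpar E θ θ') ^ p) (nhds θ) (nhds (φ θ)) := by
    have hnum : Filter.Tendsto (fun θ' => φ θ - dpar E θ θ' * (1 + dpar E θ θ') ^ q) (nhds θ)
        (nhds (φ θ)) := by
      have hc : Continuous (fun d : ℝ => φ θ - d * (1 + d) ^ q) := by fun_prop
      have := (hc.tendsto 0).comp hd
      simpa [Function.comp_def] using this
    have hden : Filter.Tendsto (fun θ' => (1 + dpar E θ θ') ^ p) (nhds θ) (nhds 1) := by
      have hc : Continuous (fun d : ℝ => (1 + d) ^ p) := by fun_prop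
      have := (hc.tendsto 0).comp hd
      simpa [Function.comp_def] using this
    have h := hnum.div hden one_ne_zero
    rw [div_one] at h
    exact h
  exact tendsto_of_tendsto_of_tendsto_of_le_of_le hll hlu hlow hup

lemma norm_end (x : Vt E (Real.pi / 2)) : ‖x‖ = ‖toV E (Real.pi / 2) x‖ := by
  rw [Vt_norm]; simp

lemma norm_start (x : Vt E 0) : ‖x‖ = ‖E.T (toV E 0 x)‖ := by
  rw [Vt_norm]; simp

lemma index_end [Nontrivial V] {k : ℕ} (hk : k ≠ 0) :
    polyIndex k V ≤ polyIndex k (Vt E (Real.pi / 2)) := by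
  have := index_compare hk (toV E (Real.pi / 2)).symm 0 le_rfl
    (fun x => by rw [norm_end]; simp) (fun x => by rw [norm_end]; simp) (fun x f hx hf hfx => by
      refine ⟨f.comp (toVL E (Real.pi / 2) : Vt E (Real.pi / 2) →L[ℝ] V), ?_, ?_, ?_⟩
      · apply ContinuousLinearMap.opNorm_le_bound _ zero_le_one
        intro y
        rw [norm_end, ← hf]
        exact f.le_opNorm _
      · rw [norm_end, LinearEquiv.apply_symm_apply, hx]
        exact hfx
      · intro u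
        have : (f.comp (toVL E (Real.pi / 2) : Vt E (Real.pi / 2) →L[ℝ] V))
            ((toV E (Real.pi / 2)).symm u) = f u := rfl
        rw [this]; simp)
  simpa using this

end Path

end Pool.Agent.H11Z.PolyIdx
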